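import Mathlib
import Pool.Agent.Helper70.Gen.Def
import Pool.Agent.Helper70.Thr3.Conf

/-!
# General thresholds: the colouring of the places

`s = 2` for even thresholds, `s = 1` for odd thresholds; `j` coordinates, `j = μ + k`;
`q = s * j + 1`, weights `s * i + 1`, the sparse set is `{y | wt y % q ≤ s * μ}`.
-/

set_option linter.unusedSectionVars false
set_option linter.unusedVariables false

namespace Pool.Agent.Helper18.Gen

open Set SimpleGraph Pool.Agent.Helper19.Perco Pool.Agent.Helper70.Duo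
open Pool.Agent.Helper70.Thr3 (sum_swap upd_adj)

/-- weight of a place -/
def ff (s : ℕ) {j n : ℕ} (y : Fin j → Fin n) : ℕ := ∑ i, (s * i.val + 1) * (y i).val

/-- the sparse set of places before cutting -/
def DP (s j n μ : ℕ) : Set (Fin j → Fin n) := {y | ff s y % (s * j + 1) ≤ s * μ}

/-- `u` is directly below `y` -/
def Bel {j n : ℕ} (u y : Fin j → Fin n) : Prop :=
  ∃ i, (u i).val + 1 = (y i).val ∧ ∀ l, l ≠ i → u l = y l

variable {s j n μ k : ℕ}

lemma adj_iff_bel {u y : Fin j → Fin n} : (Gd j n).Adj y u ↔ Bel u y ∨ Bel y u := by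
  constructor
  · rintro ⟨i, h1 | h1, h2⟩
    · exact Or.inr ⟨i, h1, h2⟩
    · exact Or.inl ⟨i, h1, fun l hl => (h2 l hl).symm⟩
  · rintro (⟨i, h1, h2⟩ | ⟨i, h1, h2⟩)
    · exact ⟨i, Or.inr h1, fun l hl => (h2 l hl).symm⟩
    · exact ⟨i, Or.inl h1, h2⟩

lemma ff_bel {u y : Fin j → Fin n} {i : Fin j} (h1 : (u i).val + 1 = (y i).val)
    (h2 : ∀ l, l ≠ i → u l = y l) : ff s y = ff s u + (s * i.val + 1) := by
  have h := sum_swap (f := fun i v => (s * i.val + 1) * v.val) (y := u) (y' := y) (i := i) h2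
  unfold ff
  rw [← h1, Nat.mul_add, Nat.mul_one] at h
  omega

/-- the place below in direction `i` -/
def dn (y : Fin j → Fin n) (i : Fin j) : Fin j → Fin n :=
  Function.update y i ⟨(y i).val - 1, lt_of_le_of_lt (Nat.sub_le _ _) (y i).isLt⟩

lemma dn_bel {y : Fin j → Fin n} {i : Fin j} (h : 1 ≤ (y i).val) :
    (dn y i i).val + 1 = (y i).val ∧ ∀ l, l ≠ i → dn y i l = y l := by
  constructor
  · unfold dn
    rw [Function.update_self]
    show (y i).val - 1 + 1 = _
    omega
  · intro l hl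
    unfold dn
    rw [Function.update_of_ne hl]

lemma bel_eq_dn {u y : Fin j → Fin n} {i : Fin j} (h1 : (u i).val + 1 = (y i).val)
    (h2 : ∀ l, l ≠ i → u l = y l) : u = dn y i := by
  funext l
  by_cases hl : l = i
  · subst hl
    apply Fin.ext
    have := (dn_bel (y := y) (i := l) (by omega)).1
    omega
  · rw [h2 l hl, (dn_bel (y := y) (i := i) (by omega)).2 l hl]

lemma dn_inj {y : Fin j → Fin n} {i i' : Fin j} (h : 1 ≤ (y i).val) (h' : 1 ≤ (y i').val)
    (he : dn y i = dn y i') : i = i' := by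
  by_contra hne
  have h1 := (dn_bel h).1
  have h2 := (dn_bel h').2 i hne
  rw [he, h2] at h1
  omega

/-- the directions of the sparse neighbours below, as a function of the colour -/
def dirs (s j μ a : ℕ) : Finset (Fin j) :=
  Finset.univ.filter (fun i => (a + (s * j + 1) - (s * i.val + 1)) % (s * j + 1) ≤ s * μ)

lemma dn_mod {y : Fin j → Fin n} {i : Fin j} (h : 1 ≤ (y i).val) :
    ff s (dn y i) % (s * j + 1) =
      (ff s y % (s * j + 1) + (s * j + 1) - (s * i.val + 1)) % (s * j + 1) := by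
  obtain ⟨h1, h2⟩ := dn_bel h
  have h3 := ff_bel (s := s) h1 h2
  have hi : s * i.val ≤ s * j := Nat.mul_le_mul_left _ i.isLt.le
  have h4 : ff s y % (s * j + 1) + (s * j + 1) * (ff s y / (s * j + 1)) = ff s y :=
    Nat.mod_add_div _ _
  set q := s * j + 1 with hq
  set a := ff s y % q with ha
  set d := ff s y / q with hd
  have h5 : ff s (dn y i) + q = (a + q - (s * i.val + 1)) + q * d := by omega
  calc ff s (dn y i) % q = (ff s (dn y i) + q) % q := (Nat.add_mod_right _ _).symm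
    _ = ((a + q - (s * i.val + 1)) + q * d) % q := by rw [h5]
    _ = _ := Nat.add_mul_mod_self_left _ _ _

lemma mem_dirs_iff {y : Fin j → Fin n} {i : Fin j} (h : 1 ≤ (y i).val) :
    i ∈ dirs s j μ (ff s y % (s * j + 1)) ↔ dn y i ∈ DP s j n μ := by
  unfold dirs DP
  rw [Finset.mem_filter, Set.mem_ofPred_eq, dn_mod h]
  simp

lemma bel_set_sub (y : Fin j → Fin n) :
    {u | Bel u y ∧ u ∈ DP s j n μ} ⊆ (fun i => dn y i) '' (dirs s j μ (ff s y % (s * j + 1)) : Set (Fin j)) := by
  rintro u ⟨⟨i, h1, h2⟩, h3⟩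
  have he := bel_eq_dn h1 h2
  refine ⟨i, ?_, he.symm⟩
  rw [he] at h3
  exact_mod_cast (mem_dirs_iff (by omega)).2 h3

lemma bel_card_le (y : Fin j → Fin n) :
    {u | Bel u y ∧ u ∈ DP s j n μ}.ncard ≤ (dirs s j μ (ff s y % (s * j + 1))).card := by
  refine le_trans (Set.ncard_le_ncard (bel_set_sub y) (Set.toFinite _)) ?_
  refine le_trans (Set.ncard_image_le (Set.toFinite _)) ?_
  rw [Set.ncard_coe_finset]

lemma bel_card_eq (y : Fin j → Fin n) (h : ∀ i, 1 ≤ (y i).val) :
    {u | Bel u y ∧ u ∈ DP s j n μ}.ncard = (dirs s j μ (ff s y % (s * j + 1))).card := by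
  have he : {u | Bel u y ∧ u ∈ DP s j n μ} =
      (fun i => dn y i) '' (dirs s j μ (ff s y % (s * j + 1)) : Set (Fin j)) := by
    apply Set.Subset.antisymm (bel_set_sub y)
    rintro u ⟨i, h1, rfl⟩
    refine ⟨⟨i, (dn_bel (h i)).1, (dn_bel (h i)).2⟩, ?_⟩
    exact (mem_dirs_iff (h i)).1 (by exact_mod_cast h1)
  rw [he, Set.InjOn.ncard_image (fun i _ i' _ hh => dn_inj (h i) (h i') hh),
    Set.ncard_coe_finset]

/-- arithmetic: membership in `dirs` -/
lemma mem_dirs {a : ℕ} {i : Fin j} (ha : a < s * j + 1) :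
    i ∈ dirs s j μ a ↔ (s * i.val + 1 ≤ a ∧ a ≤ s * i.val + 1 + s * μ) ∨
      (a < s * i.val + 1 ∧ a + s * j ≤ s * i.val + s * μ) := by
  unfold dirs
  rw [Finset.mem_filter]
  simp only [Finset.mem_univ, true_and]
  have hi : s * i.val ≤ s * j := Nat.mul_le_mul_left _ i.isLt.le
  rcases Nat.lt_or_ge a (s * i.val + 1) with h | h
  · rw [Nat.mod_eq_of_lt (by omega)]
    omega
  · have e : a + (s * j + 1) - (s * i.val + 1) = (a - (s * i.val + 1)) + (s * j + 1) := by omega
    rw [e, Nat.add_mod_right, Nat.mod_eq_of_lt (by omega)]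
    omega

/-- exact number of directions for the sparse colours -/
lemma dirs_card_eq (hs : s = 1 ∨ s = 2) {a : ℕ} (ha : a ≤ s * μ) :
    (dirs s (μ + k) μ a).card = μ := by
  have hq : a < s * (μ + k) + 1 := by
    have : s * μ ≤ s * (μ + k) := Nat.mul_le_mul_left _ (Nat.le_add_right _ _)
    omega
  -- the map
  have hA : ∃ A, A ≤ μ ∧ ∀ i : Fin (μ + k), i ∈ dirs s (μ + k) μ a ↔ i.val < A ∨ A + k ≤ i.val := by
    rcases hs with rfl | rfl
    · refine ⟨a, by omega, fun i => ?_⟩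
      rw [mem_dirs hq]
      have := i.isLt
      omega
    · refine ⟨(a + 1) / 2, by omega, fun i => ?_⟩
      rw [mem_dirs hq]
      have := i.isLt
      omega
  obtain ⟨A, hA1, hA2⟩ := hA
  have hc : (dirs s (μ + k) μ a) = (Finset.univ : Finset (Fin μ)).image
      (fun t => (⟨if t.val < A then t.val else t.val + k, by
        have := t.isLt; split_ifs <;> omega⟩ : Fin (μ + k))) := by
    ext i
    rw [hA2, Finset.mem_image]
    constructor
    · rintro (h | h)
      · refine ⟨⟨i.val, by omega⟩, Finset.mem_univ _, ?_⟩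
        apply Fin.ext
        show (if i.val < A then i.val else i.val + k) = i.val
        rw [if_pos h]
      · have := i.isLt
        refine ⟨⟨i.val - k, by omega⟩, Finset.mem_univ _, ?_⟩
        apply Fin.ext
        show (if i.val - k < A then i.val - k else i.val - k + k) = i.val
        rw [if_neg (by omega)]
        omega
    · rintro ⟨t, _, rfl⟩
      show (if t.val < A then t.val else t.val + k) < A ∨ A + k ≤ (if t.val < A then t.val else t.val + k)
      split_ifs <;> omega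
  rw [hc, Finset.card_image_of_injective, Finset.card_univ, Fintype.card_fin]
  intro t t' h
  have h1 := congrArg Fin.val h
  simp only at h1
  apply Fin.ext
  split_ifs at h1 <;> omega

lemma dirs_card_le (hs : s = 1 ∨ s = 2) {a : ℕ} (ha : a < s * (μ + k) + 1) :
    (dirs s (μ + k) μ a).card ≤ μ + 1 := by
  rcases Nat.lt_or_ge (s * μ) a with h | h
  · -- one window
    obtain ⟨m, hm⟩ : ∃ m, ∀ i : Fin (μ + k), i ∈ dirs s (μ + k) μ a → m ≤ i.val ∧ i.val ≤ m + μ := by
      rcases hs with rfl | rfl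
      · refine ⟨a - 1 - μ, fun i hi => ?_⟩
        rw [mem_dirs ha] at hi
        have := i.isLt
        omega
      · refine ⟨(a - 2 * μ) / 2, fun i hi => ?_⟩
        rw [mem_dirs ha] at hi
        have := i.isLt
        omega
    have h1 : (dirs s (μ + k) μ a).card ≤ (Finset.Icc m (m + μ)).card := by
      apply Finset.card_le_card_of_injOn (fun i => i.val)
      · intro i hi
        simp only [Finset.coe_Icc, Set.mem_Icc]
        exact hm i (by exact_mod_cast hi)
      · intro i _ i' _ h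
        exact Fin.ext h
    rw [Nat.card_Icc] at h1
    omega
  · rw [dirs_card_eq hs h]
    omega

/-- (Y1b) -/
lemma bel_card (hs : s = 1 ∨ s = 2) {y : Fin (μ + k) → Fin n} (hy : y ∈ DP s (μ + k) n μ)
    (h : ∀ i, 1 ≤ (y i).val) : {u | Bel u y ∧ u ∈ DP s (μ + k) n μ}.ncard = μ := by
  rw [bel_card_eq y h]
  exact dirs_card_eq hs hy

/-- (Y1c) -/
lemma bel_card_le' (hs : s = 1 ∨ s = 2) (y : Fin (μ + k) → Fin n) :
    {u | Bel u y ∧ u ∈ DP s (μ + k) n μ}.ncard ≤ μ + 1 :=
  (bel_card_le y).trans (dirs_card_le hs (Nat.mod_lt _ (by omega)))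

/-- sets of places with different colours -/
lemma ncard_le_col {S : Set (Fin j → Fin n)} (h1 : S ⊆ DP s j n μ)
    (h2 : ∀ u ∈ S, ∀ v ∈ S, ff s u % (s * j + 1) = ff s v % (s * j + 1) → u = v) :
    S.ncard ≤ s * μ + 1 := by
  have h3 : S.ncard ≤ (Finset.range (s * μ + 1) : Set ℕ).ncard := by
    apply Set.ncard_le_ncard_of_injOn (fun u => ff s u % (s * j + 1))
    · intro u hu
      have := h1 hu
      simp only [Finset.coe_range, Set.mem_Iio]
      exact Nat.lt_succ_of_le this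
    · intro u hu v hv h
      exact h2 u hu v hv h
  rwa [Set.ncard_coe_finset, Finset.card_range] at h3

/-- the place above in direction `i` is determined -/
lemma abv_unique {y u v : Fin j → Fin n} {i : Fin j} (h1 : (y i).val + 1 = (u i).val)
    (h2 : ∀ l, l ≠ i → y l = u l) (h3 : (y i).val + 1 = (v i).val)
    (h4 : ∀ l, l ≠ i → y l = v l) : u = v := by
  funext l
  by_cases hl : l = i
  · subst hl; apply Fin.ext; omega
  · rw [← h2 l hl, ← h4 l hl]

lemma mod_eq_cases {q x c c' : ℕ} (h : (x + c) % q = (x + c') % q) (hc : c < q) (hc' : c' < q) :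
    c = c' := by
  have h4 := Nat.ModEq.add_left_cancel' x (show x + c ≡ x + c' [MOD q] from h)
  rwa [Nat.ModEq, Nat.mod_eq_of_lt hc, Nat.mod_eq_of_lt hc'] at h4

/-- neighbours above: injectivity -/
lemma abv_inj (hs : 1 ≤ s) {y u v : Fin j → Fin n} (hu : Bel y u) (hv : Bel y v)
    (h : ff s u % (s * j + 1) = ff s v % (s * j + 1)) : u = v := by
  obtain ⟨i, h1, h2⟩ := hu
  obtain ⟨i', h3, h4⟩ := hv
  rw [ff_bel h1 h2, ff_bel h3 h4] at h
  have hi : s * (i.val + 1) ≤ s * j := Nat.mul_le_mul_left _ i.isLt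
  have hi' : s * (i'.val + 1) ≤ s * j := Nat.mul_le_mul_left _ i'.isLt
  rw [Nat.mul_add, Nat.mul_one] at hi hi'
  have h5 := mod_eq_cases h (by omega) (by omega)
  have h6 : s * i.val = s * i'.val := by omega
  have h7 := Nat.eq_of_mul_eq_mul_left (by omega) h6
  have h8 : i = i' := Fin.ext h7
  subst h8
  exact abv_unique h1 h2 h3 h4

/-- neighbours below: injectivity -/
lemma bel_inj (hs : 1 ≤ s) {y u v : Fin j → Fin n} (hu : Bel u y) (hv : Bel v y)
    (h : ff s u % (s * j + 1) = ff s v % (s * j + 1)) : u = v := by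
  obtain ⟨i, h1, h2⟩ := hu
  obtain ⟨i', h3, h4⟩ := hv
  have e1 := ff_bel (s := s) h1 h2
  have e2 := ff_bel (s := s) h3 h4
  have hi : s * (i.val + 1) ≤ s * j := Nat.mul_le_mul_left _ i.isLt
  have hi' : s * (i'.val + 1) ≤ s * j := Nat.mul_le_mul_left _ i'.isLt
  rw [Nat.mul_add, Nat.mul_one] at hi hi'
  have h5 : (ff s u + (s * i'.val + 1)) % (s * j + 1) = (ff s u + (s * i.val + 1)) % (s * j + 1) := by
    have e3 : ff s u + (s * i.val + 1) = ff s v + (s * i'.val + 1) := by omega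
    rw [e3, Nat.add_mod, h, ← Nat.add_mod]
  have h5 := mod_eq_cases h5 (by omega) (by omega)
  have h6 : s * i'.val = s * i.val := by omega
  have h7 := Nat.eq_of_mul_eq_mul_left (by omega) h6
  have h8 : i' = i := Fin.ext h7
  subst h8
  rw [bel_eq_dn h1 h2, bel_eq_dn h3 h4]

/-- above and below, even thresholds -/
lemma mix_ne {y u v : Fin j → Fin n} (hu : Bel u y) (hv : Bel y v)
    (h : ff 2 u % (2 * j + 1) = ff 2 v % (2 * j + 1)) : False := by
  obtain ⟨i, h1, h2⟩ := hu
  obtain ⟨i', h3, h4⟩ := hv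
  have e1 := ff_bel (s := 2) h1 h2
  have e2 := ff_bel (s := 2) h3 h4
  have hi := i.isLt
  have hi' := i'.isLt
  have e3 : ff 2 v = ff 2 u + (2 * i.val + 1 + (2 * i'.val + 1)) := by omega
  rw [e3] at h
  have h5 : (2 * j + 1) ∣ 2 * (i.val + i'.val + 1) := by
    have h6 : ff 2 u + 0 ≡ ff 2 u + (2 * i.val + 1 + (2 * i'.val + 1)) [MOD (2 * j + 1)] := h
    have h7 := Nat.ModEq.add_left_cancel' _ h6
    have h8 := (Nat.modEq_zero_iff_dvd.1 h7.symm)
    have e : 2 * i.val + 1 + (2 * i'.val + 1) = 2 * (i.val + i'.val + 1) := by ring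
    rwa [e] at h8
  have h6 : (2 * j + 1) ∣ (i.val + i'.val + 1) := by
    apply Nat.Coprime.dvd_of_dvd_mul_left _ h5
    rw [Nat.coprime_comm, Nat.coprime_mul_left_add_right]
    exact Nat.coprime_one_right _
  have := Nat.le_of_dvd (by omega) h6
  omega

/-- (Y1a) -/
lemma DP_cnt (b : ℕ) (hb : b ≤ 1) (y : Fin (μ + k) → Fin n) :
    cnt (Gd (μ + k) n) (DP (2 - b) (μ + k) n μ) y ≤ 2 * μ + 1 + b := by
  unfold cnt
  have hsub : (Gd (μ + k) n).neighborSet y ∩ DP (2 - b) (μ + k) n μ ⊆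
      {u | Bel u y ∧ u ∈ DP (2 - b) (μ + k) n μ} ∪ {u | Bel y u ∧ u ∈ DP (2 - b) (μ + k) n μ} := by
    rintro u ⟨h1, h2⟩
    rcases adj_iff_bel.1 h1 with h | h
    · exact Or.inl ⟨h, h2⟩
    · exact Or.inr ⟨h, h2⟩
  refine le_trans (Set.ncard_le_ncard hsub (Set.toFinite _)) ?_
  rcases (by omega : b = 0 ∨ b = 1) with rfl | rfl
  · have := ncard_le_col (s := 2) (μ := μ) (S := {u | Bel u y ∧ u ∈ DP 2 (μ + k) n μ} ∪
      {u | Bel y u ∧ u ∈ DP 2 (μ + k) n μ}) (by
        rintro u (h | h)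
        · exact h.2
        · exact h.2) (by
        rintro u (hu | hu) v (hv | hv) h
        · exact bel_inj (by omega) hu.1 hv.1 h
        · exact (mix_ne hu.1 hv.1 h).elim
        · exact (mix_ne hv.1 hu.1 h.symm).elim
        · exact abv_inj (by omega) hu.1 hv.1 h)
    exact this
  · have h1 := ncard_le_col (s := 1) (μ := μ) (S := {u | Bel u y ∧ u ∈ DP 1 (μ + k) n μ})
      (fun u hu => hu.2) (fun u hu v hv h => bel_inj (by omega) hu.1 hv.1 h)
    have h2 := ncard_le_col (s := 1) (μ := μ) (S := {u | Bel y u ∧ u ∈ DP 1 (μ + k) n μ})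
      (fun u hu => hu.2) (fun u hu v hv h => abv_inj (by omega) hu.1 hv.1 h)
    refine le_trans (Set.ncard_union_le _ _) ?_
    show {u | Bel u y ∧ u ∈ DP 1 (μ + k) n μ}.ncard + {u | Bel y u ∧ u ∈ DP 1 (μ + k) n μ}.ncard ≤ _
    omega

end Pool.Agent.Helper18.Gen
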