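import Mathlib
import Pool.Agent.Helper70.Gen.IgnDef
import Pool.Agent.Helper70.Thr3.Conf

/-!
# The ignition system: counting
-/

set_option linter.unusedSectionVars false
set_option linter.unusedVariables false

namespace Pool.Agent.Helper18.Gen

open Set SimpleGraph Pool.Agent.Helper19.Perco Pool.Agent.Helper70.Gen

section general

variable {d n : ℕ}

lemma cnt_union_le {V : Type*} [Finite V] (G : SimpleGraph V) (S S' : Set V) (v : V) :
    cnt G (S ∪ S') v ≤ cnt G S v + cnt G S' v := by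
  unfold cnt
  rw [Set.inter_union_distrib_left]
  exact Set.ncard_union_le _ _

lemma cnt_le_card (S : Set (Fin d → Fin n)) (x : Fin d → Fin n) (T : Finset (Fin d)) (f : Fin d → ℕ)
    (h : ∀ u ∈ S, (Gd d n).Adj x u → ∃ a ∈ T, (u a).val = f a ∧ ∀ j, j ≠ a → x j = u j) :
    cnt (Gd d n) S x ≤ T.card := by
  classical
  unfold cnt
  refine le_trans (Set.ncard_le_ncard (t := ((T.image fun a => if h : f a < n then
    Function.update x a ⟨f a, h⟩ else x : Finset (Fin d → Fin n)) : Set (Fin d → Fin n))) ?_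
    (Finset.finite_toSet _)) ?_
  · rintro u ⟨h1, h2⟩
    obtain ⟨a, ha, h3, h4⟩ := h u h2 h1
    simp only [Finset.coe_image, Set.mem_image, Finset.mem_coe]
    refine ⟨a, ha, ?_⟩
    have h5 : f a < n := by rw [← h3]; exact (u a).isLt
    rw [dif_pos h5]
    funext j
    by_cases hj : j = a
    · subst hj; rw [Function.update_self]; exact Fin.ext h3.symm
    · rw [Function.update_of_ne hj]; exact h4 j hj
  · rw [Set.ncard_coe_finset]; exact Finset.card_image_le

/-- coded starters: a vertex has at most one of them as a neighbour -/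
lemma coded (S : Set (Fin d → Fin n)) (κ : Fin d) (w : Fin d → ℕ) (M : ℕ) (tp : Fin d → Prop)
    (R : ℕ → ℕ → Prop)
    (h1 : ∀ u ∈ S, R (u κ).val ((∑ a, w a * (u a).val) % M) ∧ ∀ a, tp a → (u a).val + 1 = n)
    (hR1 : ∀ v v' c, R v c → R v' c → v = v') (hR2 : ∀ v c c', R v c → R v c' → c = c')
    (hR3 : ∀ v v' c c', R v c → R v' c' → v % 2 = v' % 2) (hκ : w κ = 0)
    (hw : ∀ a, ¬ tp a → a ≠ κ → 1 ≤ w a ∧ 2 * w a < M)
    (hinj : ∀ a b, ¬ tp a → a ≠ κ → ¬ tp b → b ≠ κ → w a = w b → a = b) (x : Fin d → Fin n) :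
    cnt (Gd d n) S x ≤ 1 := by
  classical
  apply cnt_le_one
  rintro u hu v hv ⟨i, hi1, hi2⟩ ⟨j, hj1, hj2⟩
  obtain ⟨hu1, hu2⟩ := h1 u hu
  obtain ⟨hv1, hv2⟩ := h1 v hv
  have hcu := Pool.Agent.Helper70.Thr3.sum_swap (f := fun a (y : Fin n) => w a * y.val) hi2
  have hcv := Pool.Agent.Helper70.Thr3.sum_swap (f := fun a (y : Fin n) => w a * y.val) hj2
  have hsame : i = j → (u i).val = (v i).val → u = v := by
    intro hij huv
    subst hij
    funext a
    by_cases ha : a = i
    · subst ha; exact Fin.ext huv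
    · rw [← hi2 a ha, hj2 a ha]
  by_cases ti : tp i
  · by_cases hij : j = i
    · subst hij
      exact hsame rfl (by have := hu2 j ti; have := hv2 j ti; omega)
    · exfalso
      have e1 := hu2 i ti
      have e2 := hv2 i ti
      rw [← hj2 i (Ne.symm hij)] at e2
      omega
  by_cases tj : tp j
  · exfalso
    have hij : j ≠ i := fun h => ti (h ▸ tj)
    have e1 := hu2 j tj
    have e2 := hv2 j tj
    rw [← hi2 j hij] at e1
    omega
  by_cases ki : i = κ
  · by_cases kj : j = κ
    · have hij : i = j := by rw [ki, kj]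
      apply hsame hij
      subst hij
      subst ki
      rw [hκ] at hcu hcv
      have e1 : ∑ a, w a * (u a).val = ∑ a, w a * (v a).val := by omega
      rw [e1] at hu1
      exact hR1 _ _ _ hu1 hv1
    · exfalso
      have e1 := hR3 _ _ _ _ hu1 hv1
      rw [← hj2 κ (Ne.symm kj)] at e1
      subst ki
      omega
  by_cases kj : j = κ
  · exfalso
    have e1 := hR3 _ _ _ _ hu1 hv1
    rw [← hi2 κ (Ne.symm ki)] at e1
    subst kj
    omega
  have e1 : (u κ).val = (v κ).val := by rw [← hi2 κ (Ne.symm ki), hj2 κ (Ne.symm kj)]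
  rw [e1] at hu1
  have e2 := hR2 _ _ _ hu1 hv1
  obtain ⟨wi1, wi2⟩ := hw i ti ki
  obtain ⟨wj1, wj2⟩ := hw j tj kj
  -- the codes
  have f1 : ∑ a, w a * (u a).val = ∑ a, w a * (x a).val + w i ∨
      ∑ a, w a * (u a).val + w i = ∑ a, w a * (x a).val := by
    rcases hi1 with h | h
    · left
      rw [← h, Nat.mul_add, Nat.mul_one] at hcu
      omega
    · right
      rw [← h, Nat.mul_add, Nat.mul_one] at hcu
      omega
  have f2 : ∑ a, w a * (v a).val = ∑ a, w a * (x a).val + w j ∨
      ∑ a, w a * (v a).val + w j = ∑ a, w a * (x a).val := by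
    rcases hj1 with h | h
    · left
      rw [← h, Nat.mul_add, Nat.mul_one] at hcv
      omega
    · right
      rw [← h, Nat.mul_add, Nat.mul_one] at hcv
      omega
  have hM : 0 < M := by omega
  have f3 : ∑ a, w a * (u a).val = ∑ a, w a * (v a).val := by
    set A := ∑ a, w a * (u a).val
    set B := ∑ a, w a * (v a).val
    have g1 := Nat.div_add_mod A M
    have g2 := Nat.div_add_mod B M
    rw [e2] at g1
    rcases Nat.lt_trichotomy (A / M) (B / M) with g | g | g
    · exfalso
      have : M * (A / M) + M ≤ M * (B / M) := by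
        rw [← Nat.mul_succ]; exact Nat.mul_le_mul_left _ g
      omega
    · rw [g] at g1; omega
    · exfalso
      have : M * (B / M) + M ≤ M * (A / M) := by
        rw [← Nat.mul_succ]; exact Nat.mul_le_mul_left _ g
      omega
  have f4 : w i = w j ∧ ((x i).val + 1 = (u i).val ↔ (x j).val + 1 = (v j).val) := by
    rcases hi1 with h | h
    · rcases hj1 with h' | h'
      · rw [← h, Nat.mul_add, Nat.mul_one] at hcu
        rw [← h', Nat.mul_add, Nat.mul_one] at hcv
        constructor
        · omega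
        · constructor <;> intro _ <;> assumption
      · exfalso
        rw [← h, Nat.mul_add, Nat.mul_one] at hcu
        rw [← h', Nat.mul_add, Nat.mul_one] at hcv
        omega
    · rcases hj1 with h' | h'
      · exfalso
        rw [← h, Nat.mul_add, Nat.mul_one] at hcu
        rw [← h', Nat.mul_add, Nat.mul_one] at hcv
        omega
      · rw [← h, Nat.mul_add, Nat.mul_one] at hcu
        rw [← h', Nat.mul_add, Nat.mul_one] at hcv
        constructor
        · omega
        · constructor <;> intro _ <;> omega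
  have hij := hinj i j ti ki tj kj f4.1
  subst hij
  exact hsame rfl (by omega)

end general

section ign

variable {m k n : ℕ} (I : IgD m k n)

open IgD

lemma hz_ne {a : Fin (m + 1 + k)} (h : a.val ≠ m) : a ≠ (hz : Fin (m + 1 + k)) :=
  fun h1 => h (congrArg Fin.val h1)

/-- the number of lower coordinates -/
lemma card_lt : (Finset.univ.filter fun a : Fin (m + 1 + k) => a.val < m).card ≤ m := by
  classical
  calc (Finset.univ.filter fun a : Fin (m + 1 + k) => a.val < m).card
      ≤ (Finset.range m).card := by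
        apply Finset.card_le_card_of_injOn (fun a => a.val)
        · intro a ha
          simpa using ha
        · intro a _ b _ h
          exact Fin.ext h
    _ = m := Finset.card_range m

lemma card_mid : (Finset.univ.filter fun a : Fin (m + 1 + k) => 1 ≤ a.val ∧ a.val < m).card ≤ m - 1 := by
  classical
  calc (Finset.univ.filter fun a : Fin (m + 1 + k) => 1 ≤ a.val ∧ a.val < m).card
      ≤ (Finset.Ico 1 m).card := by
        apply Finset.card_le_card_of_injOn (fun a => a.val)
        · intro a ha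
          simpa using ha
        · intro a _ b _ h
          exact Fin.ext h
    _ = m - 1 := Nat.card_Ico 1 m

/-- first starters -/
lemma S1_le (x : Fin (m + 1 + k) → Fin n) : cnt (Gd (m + 1 + k) n) {u | I.S1 u} x ≤ 1 := by
  have hm := I.hm
  refine coded {u | I.S1 u} (hz : Fin (m + 1 + k)) (fun a => if a.val < m then a.val + 1 else 0)
    (2 * (m + 1)) (fun a => m < a.val) (fun v c => v = I.zf + 2 + 2 * c) ?_ ?_ ?_ ?_ ?_ ?_ ?_ x
  · rintro u ⟨h1, h2, -, -⟩
    refine ⟨?_, h2⟩
    have e : cod1 u = ∑ a : Fin (m + 1 + k), (if a.val < m then a.val + 1 else 0) * (u a).val := by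
      unfold cod1
      refine Finset.sum_congr rfl fun a _ => ?_
      split_ifs <;> simp
    rw [← e]
    exact h1
  · intro v v' c h h'; omega
  · intro v c c' h h'; omega
  · intro v v' c c' h h'; omega
  · show (if m < m then m + 1 else 0) = 0
    simp
  · intro a h1 h2
    have h3 : a.val ≠ m := fun h => h2 (Fin.ext h)
    have h4 : a.val < m := by omega
    simp only [h4, if_true]
    omega
  · intro a b h1 h2 h3 h4 h5
    have h6 : a.val ≠ m := fun h => h2 (Fin.ext h)
    have h7 : b.val ≠ m := fun h => h4 (Fin.ext h)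
    have h8 : a.val < m := by omega
    have h9 : b.val < m := by omega
    simp only [h8, h9, if_true] at h5
    exact Fin.ext (by omega)

/-- second starters -/
lemma S2_le (x : Fin (m + 1 + k) → Fin n) : cnt (Gd (m + 1 + k) n) {u | I.S2 u} x ≤ 1 := by
  have hm := I.hm
  refine coded {u | I.S2 u} (IgD.h0 : Fin (m + 1 + k)) (fun a => if a.val ≤ m then a.val else 0)
    (2 * (m + 1)) (fun a => m < a.val) (fun v c => v + 2 + 2 * c = n) ?_ ?_ ?_ ?_ ?_ ?_ ?_ x
  · rintro u ⟨-, -, h1, h2⟩
    refine ⟨?_, h2⟩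
    have e : cod2 u = ∑ a : Fin (m + 1 + k), (if a.val ≤ m then a.val else 0) * (u a).val := by
      unfold cod2
      refine Finset.sum_congr rfl fun a _ => ?_
      split_ifs <;> simp
    rw [← e]
    exact h1
  · intro v v' c h h'; omega
  · intro v c c' h h'; omega
  · intro v v' c c' h h'; omega
  · show (if 0 ≤ m then 0 else 0) = 0
    simp
  · intro a h1 h2
    have h3 : a.val ≠ 0 := fun h => h2 (Fin.ext h)
    have h4 : a.val ≤ m := by omega
    simp only [h4, if_true]
    omega
  · intro a b h1 h2 h3 h4 h5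
    have h8 : a.val ≤ m := by omega
    have h9 : b.val ≤ m := by omega
    simp only [h8, h9, if_true] at h5
    exact Fin.ext (by omega)

lemma Z_adj {x u : Fin (m + 1 + k) → Fin n} {i : Fin (m + 1 + k)} (h : ∀ j, j ≠ i → x j = u j)
    (hi : i ≠ hz) : Z u = Z x := by
  unfold Z
  rw [h _ (Ne.symm hi)]

lemma Z_close {x u : Fin (m + 1 + k) → Fin n} (h : (Gd (m + 1 + k) n).Adj x u) :
    Z x ≤ Z u + 1 ∧ Z u ≤ Z x + 1 := by
  obtain ⟨i, h1, h2⟩ := h
  unfold Z
  by_cases hc : hz = i
  · subst hc; omega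
  · rw [h2 _ hc]; omega

/-- neighbours at another height -/
lemma Z_dir {x u : Fin (m + 1 + k) → Fin n} (h : (Gd (m + 1 + k) n).Adj x u) (hne : Z u ≠ Z x) :
    ∀ j, j ≠ (hz : Fin (m + 1 + k)) → x j = u j := by
  obtain ⟨i, h1, h2⟩ := h
  have hi : i = hz := by
    by_contra hi
    exact hne (Z_adj h2 hi)
  rw [hi] at h2
  exact h2

/-- a set at one other height has at most one neighbour -/
lemma cnt_height (S : Set (Fin (m + 1 + k) → Fin n)) (x : Fin (m + 1 + k) → Fin n) (z : ℕ)
    (h : ∀ u ∈ S, (Gd (m + 1 + k) n).Adj x u → Z u = z ∧ z ≠ Z x) :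
    cnt (Gd (m + 1 + k) n) S x ≤ 1 := by
  have h1 := cnt_le_card S x {(hz : Fin (m + 1 + k))} (fun _ => z) (by
    intro u hu hadj
    obtain ⟨h2, h3⟩ := h u hu hadj
    exact ⟨hz, by simp, h2, Z_dir hadj (by omega)⟩)
  simpa using h1

/-- helpers outside the quadrant, seen from the quadrant -/
lemma Sg_le (x : Fin (m + 1 + k) → Fin n) (hq : I.quad x) :
    cnt (Gd (m + 1 + k) n) {u | I.Sg u} x ≤
      (Finset.univ.filter fun a : Fin (m + 1 + k) => a.val < m ∧ (x a).val = I.c a).card := by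
  classical
  refine cnt_le_card _ _ _ (fun a => I.c a - 1) ?_
  rintro u ⟨h1, h2⟩ ⟨i, hi1, hi2⟩
  unfold quad at h2
  push Not at h2
  obtain ⟨a, ha, hua⟩ := h2
  have h3 := hq a ha
  have hai : a = i := by
    by_contra hne
    rw [hi2 a hne] at h3
    omega
  subst hai
  refine ⟨a, ?_, ?_, hi2⟩
  · rw [Finset.mem_filter]
    refine ⟨Finset.mem_univ _, ha, ?_⟩
    omega
  · have := I.c1 a
    show (u a).val = I.c a - 1
    omega

lemma Sg_zero (x : Fin (m + 1 + k) → Fin n) (h : Z x + 1 < I.zf) :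
    cnt (Gd (m + 1 + k) n) {u | I.Sg u} x = 0 := by
  apply cnt_eq_zero
  rintro u ⟨h1, -⟩ hadj
  have := Z_close hadj
  omega

lemma Sg_one (x : Fin (m + 1 + k) → Fin n) (h : Z x + 1 = I.zf) :
    cnt (Gd (m + 1 + k) n) {u | I.Sg u} x ≤ 1 := by
  apply cnt_height _ _ I.zf
  rintro u ⟨h1, -⟩ hadj
  have := Z_close hadj
  omega

lemma Sg_quad (x : Fin (m + 1 + k) → Fin n) (h : Z x + 1 = I.zf) (hq : I.quad x) :
    cnt (Gd (m + 1 + k) n) {u | I.Sg u} x = 0 := by
  apply cnt_eq_zero
  rintro u ⟨h1, h2⟩ hadj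
  apply h2
  have h3 := Z_dir hadj (by omega)
  intro a ha
  rw [← h3 a (hz_ne (by omega))]
  exact hq a ha

/-- slabs, seen from a vertex outside -/
lemma slab_le (x : Fin (m + 1 + k) → Fin n) (hx : ¬ I.slab x) (hz' : Z x < I.zf) :
    cnt (Gd (m + 1 + k) n) {u | I.slab u} x ≤
      (Finset.univ.filter fun a : Fin (m + 1 + k) =>
        (1 ≤ a.val ∧ a.val < m) ∧ (x a).val + 3 = n).card := by
  classical
  refine cnt_le_card _ _ _ (fun a => n - 2) ?_
  rintro u ⟨h1, a, ha1, ha2, ha3⟩ ⟨i, hi1, hi2⟩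
  have hxa : ¬ n ≤ (x a).val + 2 := fun h => hx ⟨hz', a, ha1, ha2, h⟩
  have hai : a = i := by
    by_contra hne
    rw [hi2 a hne] at hxa
    exact hxa ha3
  subst hai
  refine ⟨a, ?_, ?_, hi2⟩
  · rw [Finset.mem_filter]
    exact ⟨Finset.mem_univ _, ⟨ha1, ha2⟩, by omega⟩
  · show (u a).val = n - 2
    omega

lemma J1_zero (x : Fin (m + 1 + k) → Fin n) (h : Z x + 2 < I.zf ∨ I.zf < Z x) :
    cnt (Gd (m + 1 + k) n) {u | I.J1 u} x = 0 := by
  apply cnt_eq_zero
  rintro u ⟨h1, -⟩ hadj
  have := Z_close hadj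
  omega

lemma J1_one (x : Fin (m + 1 + k) → Fin n) (h : Z x + 2 = I.zf) :
    cnt (Gd (m + 1 + k) n) {u | I.J1 u} x ≤ 1 := by
  apply cnt_height _ _ (I.zf - 1)
  rintro u ⟨h1, -⟩ hadj
  have := Z_close hadj
  omega

lemma pat_of_dir {x u : Fin (m + 1 + k) → Fin n} (h : ∀ j, j ≠ (hz : Fin (m + 1 + k)) → x j = u j)
    (hu : I.pat u) : I.pat x := by
  obtain ⟨h1, b, hb1, hb2, hb3⟩ := hu
  refine ⟨fun a ha => ?_, b, hb1, ?_, fun a ha hab => ?_⟩
  · rw [h a (hz_ne (by omega))]; exact h1 a ha
  · rw [h b (hz_ne (by omega))]; exact hb2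
  · rw [h a (hz_ne (by omega))]; exact hb3 a ha hab

lemma J1_npat (x : Fin (m + 1 + k) → Fin n) (h : Z x + 2 = I.zf) (hp : ¬ I.pat x) :
    cnt (Gd (m + 1 + k) n) {u | I.J1 u} x = 0 := by
  apply cnt_eq_zero
  rintro u ⟨h1, h2⟩ hadj
  exact hp (pat_of_dir I (Z_dir hadj (by omega)) h2)

/-- at the corner -/
lemma J1_cor (x : Fin (m + 1 + k) → Fin n) (h : Z x + 1 = I.zf) (hc : I.cor x) :
    cnt (Gd (m + 1 + k) n) {u | I.J1 u} x ≤ m := by
  classical
  refine le_trans (cnt_le_card _ _ (Finset.univ.filter fun a : Fin (m + 1 + k) => a.val < m)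
    (fun a => I.c a + 1) ?_) card_lt
  rintro u ⟨h1, h2, b, hb1, hb2, hb3⟩ ⟨i, hi1, hi2⟩
  have hbi : b = i := by
    by_contra hne
    rw [← hi2 b hne, hc b (by omega)] at hb2
    omega
  subst hbi
  exact ⟨b, by rw [Finset.mem_filter]; exact ⟨Finset.mem_univ _, hb1⟩, hb2, hi2⟩

/-- the defect set -/
noncomputable def defect (x : Fin (m + 1 + k) → Fin n) : Finset (Fin (m + 1 + k)) :=
  Finset.univ.filter fun a => a.val ≠ m ∧ (x a).val ≠ I.c a

lemma J1_near (x : Fin (m + 1 + k) → Fin n) (h : Z x + 1 = I.zf) (hc : ¬ I.cor x)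
    {u : Fin (m + 1 + k) → Fin n} (hu : I.J1 u) {i : Fin (m + 1 + k)}
    (hi1 : (x i).val + 1 = (u i).val ∨ (u i).val + 1 = (x i).val) (hi2 : ∀ j, j ≠ i → x j = u j) :
    ∃ b : Fin (m + 1 + k), b.val < m ∧ i.val ≠ m ∧ (∀ a : Fin (m + 1 + k), a.val ≠ m → a ≠ b → a ≠ i →
      (x a).val = I.c a) ∧ ((i = b ∧ (u i).val = I.c i + 1 ∧ (x i).val = I.c i + 2) ∨
        (i ≠ b ∧ (x b).val = I.c b + 1 ∧ (u i).val = I.c i)) := by
  obtain ⟨h1, h2, b, hb1, hb2, hb3⟩ := hu
  have hZ : Z u = Z x := by omega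
  have him : i.val ≠ m := by
    intro him
    have : i = hz := Fin.ext him
    subst this
    unfold Z at hZ
    omega
  have hother : ∀ a : Fin (m + 1 + k), a.val ≠ m → a ≠ b → a ≠ i → (x a).val = I.c a := by
    intro a ha1 ha2 ha3
    rw [hi2 a ha3]
    rcases Nat.lt_or_ge a.val m with h3 | h3
    · exact hb3 a h3 ha2
    · exact h2 a (by omega)
  refine ⟨b, hb1, him, hother, ?_⟩
  by_cases hib : i = b
  · left
    refine ⟨hib, by rw [hib]; exact hb2, ?_⟩
    subst hib
    rcases hi1 with h3 | h3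
    · exfalso
      apply hc
      intro a ha
      by_cases hai : a = i
      · subst hai; omega
      · exact hother a ha hai hai
    · omega
  · right
    refine ⟨hib, by rw [hi2 b (Ne.symm hib)]; exact hb2, ?_⟩
    rcases Nat.lt_or_ge i.val m with h3 | h3
    · exact hb3 i h3 hib
    · exact h2 i (by omega)

lemma J1_two (x : Fin (m + 1 + k) → Fin n) (h : Z x + 1 = I.zf) (hc : ¬ I.cor x) :
    cnt (Gd (m + 1 + k) n) {u | I.J1 u} x ≤ 2 := by
  classical
  by_cases hex : ∃ u, I.J1 u ∧ (Gd (m + 1 + k) n).Adj x u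
  · obtain ⟨u0, hu0, i0, hi01, hi02⟩ := hex
    obtain ⟨b, hb, him, hoth, hcase⟩ := J1_near I x h hc hu0 hi01 hi02
    -- all neighbours are in the directions `b` and `i0`
    have hcard : ({b, i0} : Finset (Fin (m + 1 + k))).card ≤ 2 := Finset.card_le_two
    refine le_trans (cnt_le_card _ _ {b, i0}
      (fun a => if i0 = b then I.c a + 1 else I.c a) ?_) hcard
    rintro u hu ⟨i, hi1, hi2⟩
    obtain ⟨b', hb', him', hoth', hcase'⟩ := J1_near I x h hc hu hi1 hi2
    rcases hcase with ⟨e1, e2, e3⟩ | ⟨e1, e2, e3⟩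
    · -- x = c + 2 e_b
      subst e1
      rcases hcase' with ⟨g1, g2, g3⟩ | ⟨g1, g2, g3⟩
      · subst g1
        have : i = i0 := by
          by_contra hne
          have := hoth i him' hne hne
          omega
        subst this
        exact ⟨i, by simp, by simpa using g2, hi2⟩
      · exfalso
        by_cases hbi : b' = i0
        · rw [hbi] at g2; omega
        · have := hoth b' (by omega) hbi hbi
          omega
    · rcases hcase' with ⟨g1, g2, g3⟩ | ⟨g1, g2, g3⟩
      · subst g1
        exfalso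
        by_cases hbi : i = b
        · rw [hbi] at g3; omega
        · have h5 := hoth' b (by omega) (Ne.symm hbi) (Ne.symm hbi)
          omega
      · have hi : i = b ∨ i = i0 := by
          by_contra hne
          push Not at hne
          have h5 := hoth i him' hne.1 hne.2
          omega
        refine ⟨i, by simpa using hi, ?_, hi2⟩
        simp only [e1, if_false]
        exact g3
  · have : cnt (Gd (m + 1 + k) n) {u | I.J1 u} x = 0 := by
      apply cnt_eq_zero
      intro u hu hadj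
      exact hex ⟨u, hu, hadj⟩
    omega

/-- from outside the quadrant -/
lemma J1_nquad (x : Fin (m + 1 + k) → Fin n) (hq : ¬ I.quad x) :
    cnt (Gd (m + 1 + k) n) {u | I.J1 u} x ≤ 1 := by
  unfold quad at hq
  push Not at hq
  obtain ⟨a, ha, hxa⟩ := hq
  have h1 := cnt_le_card {u | I.J1 u} x {a} (fun a => I.c a) (by
    rintro u ⟨h1, h2, b, hb1, hb2, hb3⟩ ⟨i, hi1, hi2⟩
    have hua : I.c a ≤ (u a).val := by
      by_cases hab : a = b
      · subst hab; omega
      · rw [hb3 a ha hab]
    have hai : a = i := by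
      by_contra hne
      rw [← hi2 a hne] at hua
      omega
    subst hai
    exact ⟨a, by simp, by show (u a).val = I.c a; omega, hi2⟩)
  simpa using h1

end ign

end Pool.Agent.Helper18.Gen
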