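import Mathlib
import Pool.Agent.Helper18.Gen.Ign2

/-!
# The ignition system: ig2, ig3, ig4, ig5
-/

set_option linter.unusedSectionVars false
set_option linter.unusedVariables false

namespace Pool.Agent.Helper18.Gen

open Set SimpleGraph Pool.Agent.Helper19.Perco Pool.Agent.Helper70.Gen

variable {m k n : ℕ} (I : IgD m k n)

open IgD

lemma adj_close {d : ℕ} {x y : Fin d → Fin n} (h : (Gd d n).Adj x y) (c : Fin d) :
    (x c).val ≤ (y c).val + 1 ∧ (y c).val ≤ (x c).val + 1 := by
  obtain ⟨i, h1, h2⟩ := h
  by_cases hc : c = i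
  · subst hc; omega
  · rw [h2 c hc]; omega

lemma J_eq : I.J = (({u | I.J1 u} ∪ {u | I.Sg u}) ∪ {u | I.S1 u}) ∪ ({u | I.slab u} ∪ {u | I.S2 u}) := by
  ext u
  simp only [IgD.J, Set.mem_ofPred_eq, Set.mem_union]
  tauto

lemma cnt_J (x : Fin (m + 1 + k) → Fin n) : cnt (Gd (m + 1 + k) n) I.J x ≤
    cnt (Gd (m + 1 + k) n) {u | I.J1 u} x + cnt (Gd (m + 1 + k) n) {u | I.Sg u} x
      + cnt (Gd (m + 1 + k) n) {u | I.S1 u} x + (cnt (Gd (m + 1 + k) n) {u | I.slab u} x
      + cnt (Gd (m + 1 + k) n) {u | I.S2 u} x) := by
  rw [J_eq]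
  refine le_trans (cnt_union_le _ _ _ _) ?_
  refine Nat.add_le_add (le_trans (cnt_union_le _ _ _ _) ?_) (cnt_union_le _ _ _ _)
  exact Nat.add_le_add_right (cnt_union_le _ _ _ _) _

lemma S1_zero (x : Fin (m + 1 + k) → Fin n) (h : Z x < I.zf + 1) :
    cnt (Gd (m + 1 + k) n) {u | I.S1 u} x = 0 := by
  apply cnt_eq_zero
  rintro u ⟨h1, -⟩ hadj
  have := Z_close hadj
  omega

/-- `S2` is far from the corner -/
lemma S2_zero (x : Fin (m + 1 + k) → Fin n) (h : (x IgD.h0).val ≤ I.c IgD.h0 + 2) :
    cnt (Gd (m + 1 + k) n) {u | I.S2 u} x = 0 := by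
  apply cnt_eq_zero
  rintro u ⟨-, -, h1, -⟩ hadj
  have h2 := (adj_close hadj IgD.h0).2
  have h3 := I.cn IgD.h0
  have h4 : cod2 u % (2 * (m + 1)) < 2 * (m + 1) := Nat.mod_lt _ (by omega)
  omega

theorem ig2 (x : Fin (m + 1 + k) → Fin n) (hx : x ∉ I.J) :
    cnt (Gd (m + 1 + k) n) I.J x ≤ m := by
  classical
  have hm := I.hm
  have hcnt := cnt_J I x
  have hx' : ¬ I.J1 x ∧ ¬ I.Sg x ∧ ¬ I.S1 x ∧ ¬ I.slab x ∧ ¬ I.S2 x := by
    simp only [IgD.J, Set.mem_ofPred_eq] at hx
    tauto
  obtain ⟨n1, n2, n3, n4, n5⟩ := hx'
  rcases Nat.lt_or_ge (Z x) I.zf with hz | hz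
  · -- below
    have b1 := slab_le I x n4 hz
    have b2 := S2_le I x
    have b3 := S1_zero I x (by omega)
    have b4 : (Finset.univ.filter fun a : Fin (m + 1 + k) =>
        (1 ≤ a.val ∧ a.val < m) ∧ (x a).val + 3 = n).card ≤ m - 1 := by
      refine le_trans (Finset.card_le_card ?_) (card_mid (m := m) (k := k))
      intro a ha
      rw [Finset.mem_filter] at ha ⊢
      exact ⟨ha.1, ha.2.1⟩
    rcases Nat.lt_or_ge (Z x + 2) I.zf with hz2 | hz2
    · have b5 := J1_zero I x (Or.inl hz2)
      have b6 := Sg_zero I x (by omega)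
      omega
    rcases Nat.lt_or_ge (Z x + 1) I.zf with hz3 | hz3
    · have b6 := Sg_zero I x (by omega)
      by_cases hp : I.pat x
      · have b5 := J1_one I x (by omega)
        have b7 : (Finset.univ.filter fun a : Fin (m + 1 + k) =>
            (1 ≤ a.val ∧ a.val < m) ∧ (x a).val + 3 = n).card = 0 := by
          rw [Finset.card_eq_zero, Finset.filter_eq_empty_iff]
          rintro a - ⟨⟨h1, h2⟩, h3⟩
          obtain ⟨-, b, hb1, hb2, hb3⟩ := hp
          have h4 := I.cn a
          by_cases hab : a = b
          · subst hab; omega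
          · have := hb3 a h2 hab
            omega
        omega
      · have b5 := J1_npat I x (by omega) hp
        omega
    · have hz4 : Z x + 1 = I.zf := by omega
      by_cases hex : ∃ u, I.J1 u ∧ (Gd (m + 1 + k) n).Adj x u
      · obtain ⟨u, ⟨hu1, hu2, b, hb1, hb2, hb3⟩, hadj⟩ := hex
        have hclose : ∀ a : Fin (m + 1 + k), a.val < m → (x a).val ≤ I.c a + 2 := by
          intro a ha
          have h1 := (adj_close hadj a).1
          by_cases hab : a = b
          · subst hab; omega
          · have := hb3 a ha hab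
            omega
        have c1 := S2_zero I x (hclose IgD.h0 (by show 0 < m; omega))
        have c2 : (Finset.univ.filter fun a : Fin (m + 1 + k) =>
            (1 ≤ a.val ∧ a.val < m) ∧ (x a).val + 3 = n).card = 0 := by
          rw [Finset.card_eq_zero, Finset.filter_eq_empty_iff]
          rintro a - ⟨⟨h1, h2⟩, h3⟩
          have h4 := I.cn a
          have := hclose a h2
          omega
        by_cases hc : I.cor x
        · have c3 := J1_cor I x hz4 hc
          have c4 := Sg_quad I x hz4 (fun a ha => by rw [hc a (by omega)])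
          omega
        · have c3 := J1_two I x hz4 hc
          have c4 := Sg_one I x hz4
          omega
      · have c1 : cnt (Gd (m + 1 + k) n) {u | I.J1 u} x = 0 := by
          apply cnt_eq_zero
          intro u hu hadj
          exact hex ⟨u, hu, hadj⟩
        by_cases hq : I.quad x
        · have c4 := Sg_quad I x hz4 hq
          omega
        · have c4 := Sg_one I x hz4
          by_cases hall : ∃ a0 : Fin (m + 1 + k), (1 ≤ a0.val ∧ a0.val < m) ∧ (x a0).val + 3 ≠ n
          · obtain ⟨a0, ha0, ha1⟩ := hall
            have c5 : (Finset.univ.filter fun a : Fin (m + 1 + k) =>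
                (1 ≤ a.val ∧ a.val < m) ∧ (x a).val + 3 = n).card < m - 1 := by
              refine lt_of_lt_of_le (Finset.card_lt_card (t := Finset.univ.filter
                fun a : Fin (m + 1 + k) => 1 ≤ a.val ∧ a.val < m) ?_) (card_mid (m := m) (k := k))
              rw [Finset.ssubset_iff_of_subset]
              · refine ⟨a0, by simpa using ha0, ?_⟩
                simp only [Finset.mem_filter, Finset.mem_univ, true_and, not_and]
                exact fun _ => ha1
              · intro a ha
                rw [Finset.mem_filter] at ha ⊢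
                exact ⟨ha.1, ha.2.1⟩
            omega
          · push Not at hall
            have c5 : (x IgD.h0).val ≤ I.c IgD.h0 + 2 := by
              by_contra hcon
              apply hq
              intro a ha
              by_cases h0 : a.val = 0
              · have : a = IgD.h0 := Fin.ext h0
                rw [this]; omega
              · have h1 := hall a ⟨by omega, ha⟩
                have h2 := I.cn a
                omega
            have c6 := S2_zero I x c5
            omega
  · -- above
    have hq : I.quad x := by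
      by_contra hq
      exact n2 ⟨hz, hq⟩
    have b1 := Sg_le I x hq
    have b2 : (Finset.univ.filter fun a : Fin (m + 1 + k) => a.val < m ∧ (x a).val = I.c a).card ≤ m := by
      refine le_trans (Finset.card_le_card ?_) (card_lt (m := m) (k := k))
      intro a ha
      rw [Finset.mem_filter] at ha ⊢
      exact ⟨ha.1, ha.2.1⟩
    have b3 : ∀ a0 : Fin (m + 1 + k), a0.val < m → (x a0).val ≠ I.c a0 →
        (Finset.univ.filter fun a : Fin (m + 1 + k) => a.val < m ∧ (x a).val = I.c a).card < m := by
      intro a0 ha0 ha1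
      refine lt_of_lt_of_le (Finset.card_lt_card (t := Finset.univ.filter
        fun a : Fin (m + 1 + k) => a.val < m) ?_) (card_lt (m := m) (k := k))
      rw [Finset.ssubset_iff_of_subset]
      · refine ⟨a0, by simpa using ha0, ?_⟩
        simp only [Finset.mem_filter, Finset.mem_univ, true_and, not_and]
        exact fun _ => ha1
      · intro a ha
        rw [Finset.mem_filter] at ha ⊢
        exact ⟨ha.1, ha.2.1⟩
    rcases Nat.lt_or_ge I.zf (Z x) with hz2 | hz2
    · have c1 := J1_zero I x (Or.inr hz2)
      have c2 : cnt (Gd (m + 1 + k) n) {u | I.slab u} x = 0 := by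
        apply cnt_eq_zero
        rintro u ⟨h1, -⟩ hadj
        have := Z_close hadj
        omega
      have c3 : cnt (Gd (m + 1 + k) n) {u | I.S2 u} x = 0 := by
        apply cnt_eq_zero
        rintro u ⟨h1, -⟩ hadj
        have := Z_close hadj
        omega
      by_cases hall : ∃ a0 : Fin (m + 1 + k), a0.val < m ∧ (x a0).val ≠ I.c a0
      · obtain ⟨a0, ha0, ha1⟩ := hall
        have c4 := b3 a0 ha0 ha1
        have c5 := S1_le I x
        omega
      · push Not at hall
        have c5 : cnt (Gd (m + 1 + k) n) {u | I.S1 u} x = 0 := by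
          apply cnt_eq_zero
          rintro u ⟨-, -, h1, h2⟩ hadj
          obtain ⟨i, hi1, hi2⟩ := hadj
          have h3 : I.del u ≤ 1 := by
            unfold IgD.del
            have h4 : ∀ a : Fin (m + 1 + k), (if a.val < m then (u a).val - I.c a else 0)
                ≤ if a = i then 1 else 0 := by
              intro a
              by_cases hai : a = i
              · subst hai
                rw [if_pos rfl]
                split_ifs with h5
                · have := hall a h5
                  omega
                · omega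
              · rw [if_neg hai]
                split_ifs with h5
                · rw [← hi2 a hai, hall a h5]
                  omega
                · omega
            refine le_trans (Finset.sum_le_sum fun a _ => h4 a) ?_
            simp
          omega
        omega
    · have hz3 : Z x = I.zf := by omega
      have c1 := S1_zero I x (by omega)
      -- the neighbours below
      have hbelow : cnt (Gd (m + 1 + k) n) I.J x ≤ cnt (Gd (m + 1 + k) n) {u | I.Sg u} x
          + cnt (Gd (m + 1 + k) n) {u | I.J1 u ∨ I.slab u ∨ I.S2 u} x := by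
        have e : I.J = ({u | I.Sg u} ∪ {u | I.J1 u ∨ I.slab u ∨ I.S2 u}) ∪ {u | I.S1 u} := by
          ext u
          simp only [IgD.J, Set.mem_ofPred_eq, Set.mem_union]
          tauto
        rw [e]
        refine le_trans (cnt_union_le _ _ _ _) ?_
        rw [c1, Nat.add_zero]
        exact cnt_union_le _ _ _ _
      have hone : cnt (Gd (m + 1 + k) n) {u | I.J1 u ∨ I.slab u ∨ I.S2 u} x ≤ 1 := by
        apply cnt_height _ _ (I.zf - 1)
        have hz2' := I.z2
        rintro u (⟨h1, -⟩ | ⟨h1, -⟩ | ⟨h1, -⟩) hadj
        · have := Z_close hadj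
          omega
        · have := Z_close hadj
          omega
        · have := Z_close hadj
          omega
      by_cases hall : ∃ a0 : Fin (m + 1 + k), a0.val < m ∧ (x a0).val ≠ I.c a0
      · obtain ⟨a0, ha0, ha1⟩ := hall
        have c4 := b3 a0 ha0 ha1
        omega
      · push Not at hall
        have c5 : cnt (Gd (m + 1 + k) n) {u | I.J1 u ∨ I.slab u ∨ I.S2 u} x = 0 := by
          apply cnt_eq_zero
          rintro u hu hadj
          have hd : ∀ h : Z u < I.zf, ∀ j, j ≠ (IgD.hz : Fin (m + 1 + k)) → x j = u j :=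
            fun h => Z_dir hadj (by omega)
          rcases hu with ⟨h1, -, b, hb1, hb2, hb3⟩ | ⟨h1, a, ha1, ha2, ha3⟩ | ⟨h1, h2, h3, h4⟩
          · rw [← hd (by omega) b (hz_ne (by omega)), hall b hb1] at hb2
            omega
          · rw [← hd (by omega) a (hz_ne (by omega)), hall a ha2] at ha3
            have := I.cn a
            omega
          · rw [← hd (by omega) IgD.h0 (hz_ne (by show 0 ≠ m; omega)), hall IgD.h0 (by show 0 < m; omega)] at h3
            have h5 := I.cn IgD.h0
            have h6 : cod2 u % (2 * (m + 1)) < 2 * (m + 1) := Nat.mod_lt _ (by omega)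
            omega
        omega

/-- safe vertices are not adjacent to slabs or second starters -/
lemma safe_zero (x : Fin (m + 1 + k) → Fin n) (hs : safe x) :
    cnt (Gd (m + 1 + k) n) {u | I.slab u} x = 0 ∧ cnt (Gd (m + 1 + k) n) {u | I.S2 u} x = 0 := by
  have hk := I.hk
  constructor
  · apply cnt_eq_zero
    rintro u ⟨h1, a, ha1, ha2, ha3⟩ hadj
    have h2 := (adj_close hadj a).2
    have h3 := hs a ha1 (by omega)
    omega
  · apply cnt_eq_zero
    rintro u ⟨-, -, -, h1⟩ hadj
    have h4 := h1 ⟨m + 1, by omega⟩ (by show m < m + 1; omega)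
    have h2 := (adj_close hadj ⟨m + 1, by omega⟩).2
    have h3 := hs ⟨m + 1, by omega⟩ (by show 1 ≤ m + 1; omega) (by show m + 1 ≠ m; omega)
    omega

theorem ig3 (x : Fin (m + 1 + k) → Fin n) (hs : safe x) (hz : Z x + 3 ≤ I.zf) :
    cnt (Gd (m + 1 + k) n) I.J x = 0 := by
  have h1 := cnt_J I x
  have h2 := J1_zero I x (Or.inl (by omega))
  have h3 := Sg_zero I x (by omega)
  have h4 := S1_zero I x (by omega)
  obtain ⟨h5, h6⟩ := safe_zero I x hs
  omega

theorem ig4 (x : Fin (m + 1 + k) → Fin n) (hs : safe x) (hz : Z x + 2 = I.zf) :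
    cnt (Gd (m + 1 + k) n) I.J x ≤ 1 ∧ (¬ I.pat x → cnt (Gd (m + 1 + k) n) I.J x = 0) := by
  have h1 := cnt_J I x
  have h3 := Sg_zero I x (by omega)
  have h4 := S1_zero I x (by omega)
  obtain ⟨h5, h6⟩ := safe_zero I x hs
  have h2 := J1_one I x (by omega)
  refine ⟨by omega, fun hp => ?_⟩
  have h7 := J1_npat I x (by omega) hp
  omega

theorem ig5 (x : Fin (m + 1 + k) → Fin n) (hx : x ∉ I.J) (hs : safe x) (hz : Z x + 1 = I.zf)
    (hc : ¬ I.cor x) : cnt (Gd (m + 1 + k) n) I.J x ≤ 2 := by
  have h1 := cnt_J I x
  have h4 := S1_zero I x (by omega)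
  obtain ⟨h5, h6⟩ := safe_zero I x hs
  have h2 := J1_two I x hz hc
  have h3 := Sg_one I x hz
  by_cases hq : I.quad x
  · have h7 := Sg_quad I x hz hq
    omega
  · have h7 := J1_nquad I x hq
    omega

end Pool.Agent.Helper18.Gen
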